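import Pool.Agent.MP_0f3202_lc.Lb.St

/-! The trace moment bound. -/

namespace Pool.Agent.MP0f3202.Lb

open Finset Matrix

section
variable {K : Type} [Fintype K] [DecidableEq K]

omit [DecidableEq K] in
theorem cs_Tr (v y : K → ℝ) : (v ⬝ᵥ y) ^ 2 ≤ (v ⬝ᵥ v) * (y ⬝ᵥ y) := by
  simpa only [dotProduct, pow_two] using sum_mul_sq_le_sq_mul_sq univ v y

omit [DecidableEq K] in
theorem self_Tr (y : K → ℝ) : 0 ≤ y ⬝ᵥ y := sum_nonneg fun _ _ => mul_self_nonneg _

theorem dbl_Tr {X : Matrix K K ℝ} (hX : Xᵀ = X) (v : K → ℝ) (k : ℕ) :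
    v ⬝ᵥ (X ^ (k * 2)) *ᵥ v = ((X ^ k) *ᵥ v) ⬝ᵥ ((X ^ k) *ᵥ v) := by
  rw [pow_mul, pow_two, ← mulVec_mulVec, dotProduct_mulVec, ← mulVec_transpose, transpose_pow, hX]

theorem mom_Tr {X : Matrix K K ℝ} (hX : Xᵀ = X) {v : K → ℝ} (hv : v ⬝ᵥ v ≤ 2) (j : ℕ) :
    (v ⬝ᵥ X *ᵥ v / 2) ^ 2 ^ (j + 1) ≤ trace (X ^ 2 ^ (j + 1)) := by
  have h1 : ∀ k, (v ⬝ᵥ (X ^ k) *ᵥ v / 2) ^ 2 ≤ v ⬝ᵥ (X ^ (k * 2)) *ᵥ v / 2 := fun k => by
    rw [dbl_Tr hX]
    have := (cs_Tr v ((X ^ k) *ᵥ v)).trans (mul_le_mul_of_nonneg_right hv (self_Tr _))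
    linarith
  have h2 : ∀ i, (v ⬝ᵥ X *ᵥ v / 2) ^ 2 ^ (i + 1) ≤ v ⬝ᵥ (X ^ 2 ^ (i + 1)) *ᵥ v / 2 := fun i => by
    induction i with
    | zero => simpa using h1 1
    | succ i ih =>
      rw [pow_succ 2 (i + 1), pow_mul]
      refine le_trans (pow_le_pow_left₀ ?_ ih 2) (h1 _)
      rw [pow_succ, pow_mul]
      exact sq_nonneg _
  refine (h2 j).trans ?_
  rw [pow_succ, dbl_Tr hX, pow_mul, pow_two]
  have hY : (X ^ 2 ^ j)ᵀ = X ^ 2 ^ j := by rw [transpose_pow, hX]
  generalize X ^ 2 ^ j = Y at hY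
  have h3 : (Y *ᵥ v) ⬝ᵥ (Y *ᵥ v) ≤ ∑ i, (Y * Y) i i * 2 := by
    refine sum_le_sum fun i _ => ?_
    have e : (Y * Y) i i = Y i ⬝ᵥ Y i := by
      rw [mul_apply]
      exact sum_congr rfl fun k _ => by rw [show Y k i = Y i k from congrFun (congrFun hY i) k]
    rw [e, ← pow_two]
    exact (cs_Tr (Y i) v).trans (mul_le_mul_of_nonneg_left hv (self_Tr _))
  rw [← sum_mul] at h3
  simp only [trace, Matrix.diag]
  linarith

theorem exp_Tr {R : Type} [Fintype R] (c : R → ℝ) (H : R → Matrix K K ℝ) (k : ℕ) :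
    (∑ r, c r • H r) ^ k
      = ∑ f : Fin k → R, (∏ i, c (f i)) • (List.ofFn fun i => H (f i)).prod := by
  induction k with
  | zero => simp
  | succ k ih =>
    rw [pow_succ', ih, ← (Fin.consEquiv fun _ : Fin (k + 1) => R).sum_comp, Fintype.sum_prod_type,
      sum_mul_sum]
    refine sum_congr rfl fun r _ => sum_congr rfl fun f _ => ?_
    simp [Fin.prod_univ_succ, List.ofFn_succ, Fin.consEquiv, smul_smul, mul_comm]

theorem prod_Tr {v : K → ℝ} (L : List (Matrix K K ℝ))
    (h : ∀ M ∈ L, (∀ i j, 0 ≤ M i j) ∧ ∀ i, (M *ᵥ v) i ≤ v i) :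
    (∀ i j, 0 ≤ L.prod i j) ∧ ∀ i, (L.prod *ᵥ v) i ≤ v i := by
  induction L with
  | nil => exact ⟨fun i j => by simp [one_apply]; positivity, fun i => by simp⟩
  | cons M L ih =>
    obtain ⟨a1, a2⟩ := h M List.mem_cons_self
    obtain ⟨b1, b2⟩ := ih fun N hN => h N (List.mem_cons_of_mem _ hN)
    rw [List.prod_cons]
    refine ⟨fun i j => ?_, fun i => ?_⟩
    · rw [mul_apply]
      exact sum_nonneg fun k _ => mul_nonneg (a1 _ _) (b1 _ _)
    · rw [← mulVec_mulVec]
      exact le_trans (sum_le_sum fun k _ => mul_le_mul_of_nonneg_left (b2 k) (a1 i k)) (a2 i)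

theorem trace_Tr {v : K → ℝ} (hv : ∀ i, 0 ≤ v i) (L : List (Matrix K K ℝ))
    (h : ∀ M ∈ L, (∀ i j, 0 ≤ M i j) ∧ ∀ i, (M *ᵥ v) i ≤ v i)
    (h0 : ∀ M ∈ L, ∀ i j, v i = 0 → M i j = 0) :
    0 ≤ trace L.prod ∧ trace L.prod ≤ Fintype.card K := by
  obtain ⟨a1, a2⟩ := prod_Tr L h
  refine ⟨sum_nonneg fun i _ => a1 i i, (sum_le_card_nsmul _ _ 1 fun i _ => ?_).trans (by simp)⟩
  rcases (hv i).eq_or_lt with c | c
  · cases L with
    | nil => simp
    | cons M L =>
      rw [List.prod_cons, Matrix.diag, mul_apply, sum_eq_zero fun k _ => by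
        rw [h0 M List.mem_cons_self i k c.symm, zero_mul]]
      exact zero_le_one
  · refine le_of_mul_le_mul_right (le_trans ?_ ((a2 i).trans (one_mul _).ge)) c
    exact single_le_sum (f := fun k => L.prod i k * v k)
      (fun k _ => mul_nonneg (a1 i k) (hv k)) (mem_univ i)

end

theorem sTr : STr := by
  intro K R W _ _ _ _ μ Q s j hj hμ hs hQ hsym hrow
  obtain ⟨j, rfl⟩ := Nat.exists_eq_add_of_le' hj
  obtain ⟨H, hH⟩ : ∃ H : R → Matrix K K ℝ, ∀ r i i', H r i i' = Q r i i' / (√(μ i) * √(μ i')) :=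
    ⟨fun r => of fun i i' => Q r i i' / (√(μ i) * √(μ i')), fun _ _ _ => rfl⟩
  have hz : ∀ r i i', √(μ i) = 0 → Q r i i' = 0 := fun r i i' h => by
    have h1 := (single_le_sum (fun k _ => hQ r i k) (mem_univ i')).trans (hrow r i)
    rw [(Real.sqrt_eq_zero (hμ i)).1 h] at h1
    exact le_antisymm h1 (hQ r i i')
  refine ⟨fun w => trace ((∑ r, s w r • H r) ^ 2 ^ (j + 1)), fun w u hu => ?_, ?_⟩
  · have hX : (∑ r, s w r • H r)ᵀ = ∑ r, s w r • H r := by
      rw [transpose_sum]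
      refine sum_congr rfl fun r _ => ?_
      ext i i'
      rw [transpose_apply, Matrix.smul_apply, Matrix.smul_apply, hH, hH, hsym r i' i,
        mul_comm √(μ i')]
    have hv : (fun i => √(μ i) * u i) ⬝ᵥ (fun i => √(μ i) * u i) ≤ 2 := by
      refine le_trans (sum_le_sum fun i _ => ?_) hs
      have := abs_le.1 (hu i)
      rw [mul_mul_mul_comm, Real.mul_self_sqrt (hμ i)]
      exact mul_le_of_le_one_right (hμ i) (by nlinarith)
    have key := mom_Tr hX hv j
    rw [sum_mulVec, dotProduct_sum] at key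
    convert key using 4 with r
    rw [smul_mulVec, dotProduct_smul, smul_eq_mul]
    congr 1
    refine sum_congr rfl fun i _ => ?_
    simp only [mulVec, dotProduct, mul_sum]
    refine sum_congr rfl fun i' _ => ?_
    rw [hH]
    by_cases c : √(μ i) = 0
    · simp [hz r i i' c]
    by_cases c' : √(μ i') = 0
    · simp [hsym r i i', hz r i' i c']
    field_simp
  · simp only [exp_Tr, trace_sum, trace_smul, smul_eq_mul]
    rw [sum_comm, mul_sum]
    refine sum_le_sum fun f _ => ?_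
    obtain ⟨t1, t2⟩ := trace_Tr (v := fun i => √(μ i)) (fun i => Real.sqrt_nonneg _)
      (List.ofFn fun i => H (f i)) (fun M hM => by
        obtain ⟨k, rfl⟩ := List.mem_ofFn.1 hM
        refine ⟨fun i i' => by rw [hH]; exact div_nonneg (hQ _ _ _) (by positivity), fun i => ?_⟩
        refine le_trans (sum_le_sum (g := fun i' => Q (f k) i i' / √(μ i)) fun i' _ => ?_) ?_
        · change H (f k) i i' * √(μ i') ≤ _
          rw [hH]
          by_cases c' : √(μ i') = 0
          · rw [c', mul_zero]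
            exact div_nonneg (hQ _ _ _) (Real.sqrt_nonneg _)
          · rw [← div_div, div_mul_cancel₀ _ c']
        · rw [← sum_div]
          exact (div_le_div_of_nonneg_right (hrow _ i) (Real.sqrt_nonneg _)).trans_eq
            Real.div_sqrt) fun M hM i i' c => by
        obtain ⟨k, rfl⟩ := List.mem_ofFn.1 hM
        rw [hH, hz _ i i' c, zero_div]
    rw [← sum_mul, mul_comm]
    exact (mul_le_mul_of_nonneg_left (le_abs_self _) t1).trans
      (mul_le_mul_of_nonneg_right t2 (abs_nonneg _))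

end Pool.Agent.MP0f3202.Lb

namespace Pool.Agent.MP0f3202.Lb

open Finset

theorem fac_Kh {p : ℕ} (hp : 2 ≤ p) : 2 * p.factorial ≤ p ^ p := by
  induction p, hp using Nat.le_induction with
  | base => decide
  | succ p hp ih =>
    rw [Nat.factorial_succ, pow_succ', mul_left_comm]
    exact Nat.mul_le_mul_left _ (ih.trans (Nat.pow_le_pow_left (by omega) _))

theorem mgf_Kh (A : Type) [Fintype A] [DecidableEq A] {p : ℕ} (hA : Fintype.card A = 16 * p)
    {t : ℝ} (ht : t ^ 2 = 1 / 16) :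
    ∑ w : A → Bool, Real.exp (t * ∑ a, chi (w a)) ≤ 2 ^ Fintype.card A * 2 ^ p := by
  have e : ∑ w : A → Bool, Real.exp (t * ∑ a, chi (w a)) =
      ∏ _a : A, ∑ v : Bool, Real.exp (t * chi v) := by
    rw [Finset.prod_univ_sum, Fintype.piFinset_univ]
    exact Finset.sum_congr rfl fun w _ => by rw [Finset.mul_sum, Real.exp_sum]
  have c : ∑ v : Bool, Real.exp (t * chi v) ≤ 2 * Real.exp (1 / 32) := by
    have h := Real.cosh_le_exp_half_sq t
    rw [Real.cosh_eq, ht] at h
    simp only [Fintype.sum_bool, chi, if_true, Bool.false_eq_true, if_false, mul_neg, mul_one]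
    norm_num at h ⊢
    linarith
  have x : Real.exp (1 / 32) ^ 16 ≤ 2 := by
    rw [← Real.exp_nat_mul]
    have h1 := Real.exp_one_lt_d9
    have h2 : Real.exp ((16 : ℕ) * (1 / 32)) ^ 2 = Real.exp 1 := by
      rw [← Real.exp_nat_mul]
      norm_num
    nlinarith [Real.exp_pos ((16 : ℕ) * (1 / 32) : ℝ)]
  rw [e, Finset.prod_const, Finset.card_univ]
  refine (pow_le_pow_left₀ (Finset.sum_nonneg fun _ _ => (Real.exp_pos _).le) c _).trans ?_
  rw [mul_pow]
  refine mul_le_mul_of_nonneg_left ?_ (by positivity)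
  rw [hA, pow_mul]
  exact pow_le_pow_left₀ (by positivity) x _

theorem pt_Kh {p : ℕ} (he : Even p) (s : ℝ) :
    s ^ p ≤ 4 ^ p * p.factorial * (Real.exp (1 / 4 * s) + Real.exp (-(1 / 4) * s)) := by
  have h := Real.pow_div_factorial_le_exp |s / 4| (abs_nonneg _) p
  rw [he.pow_abs, div_le_iff₀ (by positivity), div_pow, div_le_iff₀ (by positivity)] at h
  have b : Real.exp |s / 4| ≤ Real.exp (1 / 4 * s) + Real.exp (-(1 / 4) * s) := by
    have h1 := Real.exp_pos (1 / 4 * s)
    have h2 := Real.exp_pos (-(1 / 4) * s)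
    rcases abs_cases (s / 4) with c | c
    · rw [c.1, show s / 4 = 1 / 4 * s by ring]; linarith
    · rw [c.1, show -(s / 4) = -(1 / 4) * s by ring]; linarith
  calc s ^ p ≤ 4 ^ p * p.factorial * Real.exp |s / 4| := by linarith
    _ ≤ _ := mul_le_mul_of_nonneg_left b (by positivity)

theorem sKh : SKh := by
  intro A _ _ p hp he hA
  have h1 := mgf_Kh A hA (t := 1 / 4) (by norm_num)
  have h2 := mgf_Kh A hA (t := -(1 / 4)) (by norm_num)
  have h3 : (2 : ℝ) * p.factorial ≤ (p : ℝ) ^ p := by exact_mod_cast fac_Kh hp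
  have h4 : ∑ w : A → Bool, (∑ a, chi (w a)) ^ p ≤
      4 ^ p * p.factorial * (2 ^ Fintype.card A * 2 ^ p + 2 ^ Fintype.card A * 2 ^ p) := by
    refine (Finset.sum_le_sum fun w _ => pt_Kh he _).trans ?_
    rw [← Finset.mul_sum, Finset.sum_add_distrib]
    exact mul_le_mul_of_nonneg_left (add_le_add h1 h2) (by positivity)
  have h5 : (Fintype.card A : ℝ) ^ p = 2 ^ p * 4 ^ p * 2 ^ p * (p : ℝ) ^ p := by
    rw [hA, ← mul_pow, ← mul_pow, ← mul_pow]
    push_cast
    norm_num
  calc _ ≤ 2 ^ p * (4 ^ p * p.factorial *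
        (2 ^ Fintype.card A * 2 ^ p + 2 ^ Fintype.card A * 2 ^ p) : ℝ) :=
        mul_le_mul_of_nonneg_left h4 (by positivity)
    _ = 2 ^ p * 4 ^ p * 2 ^ p * (2 * p.factorial) * 2 ^ Fintype.card A := by ring
    _ ≤ _ := by
        rw [h5]
        gcongr

end Pool.Agent.MP0f3202.Lb

namespace Pool.Agent.MP0f3202.Lb

open Finset

theorem pos_Mom {A ι : Type} [Fintype A] [DecidableEq A] [Fintype ι] (t : ι → A) :
    0 ≤ ∑ v : A → Bool, ∏ i, chi (v (t i)) := by
  have h : ∀ v : A → Bool, ∏ i, chi (v (t i)) = ∏ a, chi (v a) ^ #{i | t i = a} := fun v => by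
    rw [← prod_fiberwise' univ t fun a => chi (v a)]
    simp only [prod_const]
  simp only [h]
  rw [← Fintype.prod_sum fun a (β : Bool) => chi β ^ #{i | t i = a}]
  refine prod_nonneg fun a _ => ?_
  rw [Fintype.sum_bool]
  rcases neg_one_pow_eq_or ℝ #{i | t i = a} with e | e <;> simp [chi, e]

theorem sg_Mom {M b : ℕ} (w : Db M b) (r : Lab' M b) :
    sg w r = (∏ l, -chi (r l 0)) * ∏ l, chi (w l (Fin.tail (r l))) := by
  rw [sg, ← prod_mul_distrib]
  refine prod_congr rfl fun l _ => ?_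
  cases w l (Fin.tail (r l)) <;> cases r l 0 <;> simp [chi]

theorem abs_Mom {M b p : ℕ} (f : Fin p → Lab' M b) :
    |∑ w : Db M b, ∏ i, sg w (f i)| = ∑ w : Db M b, ∏ i, ∏ l, chi (w l (Fin.tail (f i l))) := by
  simp only [sg_Mom, prod_mul_distrib]
  rw [← mul_sum, abs_mul, abs_of_nonneg (a := ∑ w : Db M b, _), abs_prod, prod_eq_one, one_mul]
  · intro i _
    rw [abs_prod]
    refine prod_eq_one fun l _ => ?_
    cases f i l 0 <;> simp [chi]
  · simp only [prod_comm (s := (univ : Finset (Fin p)))]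
    rw [← Fintype.prod_sum fun l (v : (Fin b → Bool) → Bool) => ∏ i, chi (v (Fin.tail (f i l)))]
    exact prod_nonneg fun l _ => pos_Mom _

theorem tail_Mom {b : ℕ} (v : (Fin b → Bool) → Bool) :
    ∑ s : Fin (b + 1) → Bool, chi (v (Fin.tail s)) = 2 * ∑ a, chi (v a) := by
  rw [← (Fin.consEquiv fun _ : Fin (b + 1) => Bool).sum_comp, Fintype.sum_prod_type,
    Fintype.sum_bool, two_mul]
  rfl

theorem sMom (hKh : SKh) : SMom := by
  intro M b j hj hb
  have p2 : 2 ≤ 2 ^ j := le_self_pow₀ one_le_two (by omega)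
  have ev : Even (2 ^ j) := (Nat.even_pow' (by omega)).2 even_two
  generalize 2 ^ j = p at hb p2 ev ⊢
  have cA : Fintype.card (Fin b → Bool) = 2 ^ b := by simp
  have h := hKh (Fin b → Bool) p p2 ev (cA.trans hb)
  have h0 : 0 ≤ ∑ w : (Fin b → Bool) → Bool, (∑ a, chi (w a)) ^ p :=
    sum_nonneg fun w _ => ev.pow_nonneg _
  have e : ∑ f : Fin p → Lab' M b, |∑ w : Db M b, ∏ i, sg w (f i)| =
      (2 ^ p * ∑ w : (Fin b → Bool) → Bool, (∑ a, chi (w a)) ^ p) ^ M := by
    simp only [abs_Mom]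
    rw [sum_comm, mul_sum, ← Fin.prod_const, Fintype.prod_sum]
    refine sum_congr rfl fun w _ => ?_
    rw [← Fintype.sum_pow fun r : Lab' M b => ∏ l, chi (w l (Fin.tail (r l))),
      ← Fintype.prod_sum fun l (s : Fin (b + 1) → Bool) => chi (w l (Fin.tail s)), ← prod_pow]
    simp only [tail_Mom, mul_pow]
  rw [e]
  refine (mul_le_mul_of_nonneg_left (pow_le_pow_left₀ (by positivity) h M)
    (by positivity)).trans_eq ?_
  simp only [Fintype.card_fun, Fintype.card_fin, Fintype.card_bool]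
  push_cast
  ring

end Pool.Agent.MP0f3202.Lb

namespace Pool.Agent.MP0f3202.Lb

open Finset

theorem sCore (hTr : STr) (hMom : SMom) : SCore := by
  intro Ω K ι _ _ _ M b j G D D' k1 k2 r T a a' hj hb hD hD1 hD' h1 h2 hT ha ha' hsum
  set c : ℝ := (Fintype.card (Lab' M b) : ℝ) with hc
  set cW : ℝ := (Fintype.card (Db M b) : ℝ) with hcW
  have cp : 0 < c := Nat.cast_pos.2 Fintype.card_pos
  have wp : 0 < cW := Nat.cast_pos.2 Fintype.card_pos
  let q : Lab' M b → K → K → ℝ := fun r0 k k' =>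
    c / 2 * ∑ ω, if k1 ω = k ∧ k2 ω = k' ∧ r ω = r0 then D' ω else 0
  have q0 : ∀ r0 k k', 0 ≤ q r0 k k' := fun r0 k k' =>
    mul_nonneg (by positivity) (sum_nonneg fun ω _ => by split_ifs; exacts [hD' ω, le_rfl])
  have m1 : ∀ k : Ω → K, ∑ x, ∑ ω, (if k ω = x then D ω else 0) = 1 := fun k => by
    rw [sum_comm, ← hD1]
    simp
  obtain ⟨τ, t1, t2⟩ := hTr (K ⊕ K) (Lab' M b) (Db M b)
    (Sum.elim (fun k => ∑ ω, if k1 ω = k then D ω else 0) fun k => ∑ ω, if k2 ω = k then D ω else 0)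
    (fun r0 => Sum.elim (fun k => Sum.elim (fun _ => 0) (q r0 k))
      fun k' => Sum.elim (fun k => q r0 k k') fun _ => 0) sg j hj
    (by
      rintro (k | k) <;>
        exact sum_nonneg fun ω _ => by split_ifs; exacts [hD ω, le_rfl])
    (by
      rw [Fintype.sum_sum_type]
      simp only [Sum.elim_inl, Sum.elim_inr, m1]
      norm_num)
    (by rintro r0 (k | k) (k' | k') <;> simp [q0])
    (by rintro r0 (k | k) (k' | k') <;> rfl)
    (by
      rintro r0 (k | k)
      · have e : ∑ k', q r0 k k' = c / 2 * ∑ ω, if k1 ω = k ∧ r ω = r0 then D' ω else 0 := by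
          rw [← mul_sum, sum_comm]
          congr 1
          refine sum_congr rfl fun ω _ => ?_
          rw [sum_eq_single (k2 ω) (fun x _ hx => if_neg fun h => hx h.2.1.symm) (by simp)]
          simp
        simp only [Fintype.sum_sum_type, Sum.elim_inl, Sum.elim_inr, sum_const_zero, zero_add, e]
        linarith [h1 k r0]
      · have e : ∑ k', q r0 k' k = c / 2 * ∑ ω, if k2 ω = k ∧ r ω = r0 then D' ω else 0 := by
          rw [← mul_sum, sum_comm]
          congr 1
          refine sum_congr rfl fun ω _ => ?_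
          rw [sum_eq_single (k1 ω) (fun x _ hx => if_neg fun h => hx h.1.symm) (by simp)]
          simp
        simp only [Fintype.sum_sum_type, Sum.elim_inl, Sum.elim_inr, sum_const_zero, add_zero, e]
        linarith [h2 k r0])
  let θ : Db M b → ι → ℝ := fun w t =>
    c / 2 * ∑ ω, D' ω * (sg w (r ω) * (a w t (k1 ω) * a' w t (k2 ω)))
  have τ0 : ∀ w, 0 ≤ τ w := fun w => by
    refine le_trans ?_ (t1 w 0 (by simp))
    simp
  obtain ⟨p, hp⟩ : ∃ p, 2 ^ j = p + 1 := ⟨2 ^ j - 1, by have := Nat.one_le_two_pow (n := j); omega⟩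
  have ev : Even (2 ^ j) := (Nat.even_pow.2 ⟨even_two, by omega⟩)
  have th : ∀ w t, |θ w t| ^ 2 ^ j ≤ τ w := fun w t => by
    rw [ev.pow_abs]
    refine le_of_eq_of_le ?_ (t1 w (Sum.elim (a w t) (a' w t))
      (by rintro (k | k); exacts [ha w t k, ha' w t k]))
    congr 1
    have e : ∀ r0, ∑ k, ∑ k', q r0 k k' * (a w t k * a' w t k') =
        c / 2 * ∑ ω, if r ω = r0 then D' ω * (a w t (k1 ω) * a' w t (k2 ω)) else 0 := fun r0 => by
      simp only [q, mul_assoc, ← mul_sum, sum_mul]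
      congr 1
      rw [sum_congr rfl fun k _ => sum_comm, sum_comm]
      refine sum_congr rfl fun ω _ => ?_
      rw [sum_eq_single (k1 ω) (fun x _ hx => sum_eq_zero fun y _ => by
        rw [if_neg fun h => hx h.1.symm, zero_mul]) (by simp), sum_eq_single (k2 ω)
        (fun x _ hx => by rw [if_neg fun h => hx h.2.1.symm, zero_mul]) (by simp)]
      simp
    have e' : ∀ r0, ∑ k', ∑ k, q r0 k k' * (a' w t k' * a w t k) =
        ∑ k, ∑ k', q r0 k k' * (a w t k * a' w t k') := fun r0 => by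
      rw [sum_comm]
      simp only [mul_comm]
    simp only [Fintype.sum_sum_type, Sum.elim_inl, Sum.elim_inr, zero_mul, sum_const_zero,
      zero_add, add_zero, e', e]
    rw [eq_div_iff two_ne_zero]
    have e2 : ∑ r0, sg w r0 * ∑ ω, (if r ω = r0 then D' ω * (a w t (k1 ω) * a' w t (k2 ω)) else 0)
        = ∑ ω, D' ω * (sg w (r ω) * (a w t (k1 ω) * a' w t (k2 ω))) := by
      simp only [mul_sum]
      rw [sum_comm]
      refine sum_congr rfl fun ω _ => ?_
      simp [mul_left_comm]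
    simp only [θ]
    rw [← e2, mul_sum, sum_mul]
    exact sum_congr rfl fun r0 _ => by ring
  have s1 : c * cW / 4 ≤ ∑ w, ∑ t ∈ T w, |θ w t| := by
    calc c * cW / 4 = c / 2 * (cW / 2) := by ring
      _ ≤ _ := mul_le_mul_of_nonneg_left hsum (by positivity)
      _ = ∑ w, ∑ t ∈ T w, θ w t := by
        rw [mul_sum]
        refine sum_congr rfl fun w _ => ?_
        simp only [θ]
        rw [← mul_sum, sum_comm]
        simp only [mul_sum]
      _ ≤ _ := sum_le_sum fun w _ => sum_le_sum fun t _ => le_abs_self _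
  have s2 : ∀ w, (∑ t ∈ T w, |θ w t|) ^ (p + 1) ≤ (G : ℝ) ^ (p + 1) * τ w := fun w => by
    calc _ ≤ _ := pow_sum_le_card_mul_sum_pow (fun t _ => abs_nonneg _) p
      _ ≤ (#(T w) : ℝ) ^ p * ∑ _t ∈ T w, τ w :=
        mul_le_mul_of_nonneg_left (sum_le_sum fun t _ => hp ▸ th w t) (by positivity)
      _ = (#(T w) : ℝ) ^ (p + 1) * τ w := by rw [sum_const, nsmul_eq_mul]; ring
      _ ≤ _ := mul_le_mul_of_nonneg_right
        (pow_le_pow_left₀ (by positivity) (by exact_mod_cast hT w) _) (τ0 w)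
  have s3 : (c * cW / 4) ^ (p + 1) ≤ cW ^ p * ((G : ℝ) ^ (p + 1) * ∑ w, τ w) := by
    calc _ ≤ _ := pow_le_pow_left₀ (by positivity) s1 _
      _ ≤ _ := pow_sum_le_card_mul_sum_pow (fun w _ => sum_nonneg fun t _ => abs_nonneg _) p
      _ ≤ _ := by
        rw [mul_sum univ τ]
        exact mul_le_mul_of_nonneg_left (sum_le_sum fun w _ => s2 w) (pow_nonneg wp.le p)
  have s4 : (2 : ℝ) ^ (2 ^ j * M) * ∑ w, τ w ≤ 2 * Fintype.card K * (c ^ (p + 1) * cW) := by
    have := hMom M b j hj hb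
    rw [← hc, ← hcW] at this
    rw [Fintype.card_sum, Nat.cast_add, ← two_mul] at t2
    calc _ ≤ _ := mul_le_mul_of_nonneg_left t2 (by positivity)
      _ = 2 * Fintype.card K * (2 ^ (2 ^ j * M) * _) := mul_left_comm _ _ _
      _ ≤ _ := mul_le_mul_of_nonneg_left (hp ▸ this) (by positivity)
  have s5 : (2 : ℝ) ^ (2 ^ j * M) * (c * cW / 4) ^ (p + 1) ≤
      2 * Fintype.card K * (4 * G) ^ (p + 1) * (c * cW / 4) ^ (p + 1) := by
    calc _ ≤ _ := mul_le_mul_of_nonneg_left s3 (by positivity)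
      _ = cW ^ p * (G : ℝ) ^ (p + 1) * (2 ^ (2 ^ j * M) * ∑ w, τ w) := by ring
      _ ≤ _ := mul_le_mul_of_nonneg_left s4 (by positivity)
      _ = _ := by
        rw [mul_assoc _ ((4 * G : ℝ) ^ (p + 1)), ← mul_pow,
          show 4 * G * (c * cW / 4) = G * (c * cW) by ring, mul_pow, mul_pow]
        ring
  have := le_of_mul_le_mul_right s5 (by positivity)
  rw [← hp] at this
  exact_mod_cast this

end Pool.Agent.MP0f3202.Lb

/-! Almost independent labels can be cut down to labels of bounded density. -/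

namespace Pool.Agent.MP0f3202.Lb

open Finset

open Classical in
theorem one_Good {Ω K R : Type} [Fintype Ω] [Fintype K] [DecidableEq K] [Fintype R]
    [DecidableEq R] [Nonempty R] (D : Ω → ℝ) (k : Ω → K) (r : Ω → R) (σ : R → R → R) (η : ℝ)
    (hσ : ∀ r0, Function.Bijective fun u => σ u r0)
    (H : ∀ (u : R) (B : K → R → Prop), ∑ ω, (if B (k ω) (r ω) then D ω else 0) ≤
      ∑ ω, (if B (k ω) (σ u (r ω)) then D ω else 0) + η) :
    ∃ B : K → R → Prop, ∑ ω, (if B (k ω) (r ω) then D ω else 0) ≤ 2 * η ∧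
      ∀ k0 r0, ¬ B k0 r0 →
        (Fintype.card R : ℝ) * ∑ ω, (if k ω = k0 ∧ r ω = r0 then D ω else 0) ≤
          2 * ∑ ω, if k ω = k0 then D ω else 0 := by
  obtain ⟨B, hB⟩ : ∃ B : K → R → Prop, ∀ k0 r0, B k0 r0 ↔
      2 * (∑ ω, if k ω = k0 then D ω else 0) <
        (Fintype.card R : ℝ) * ∑ ω, (if k ω = k0 ∧ r ω = r0 then D ω else 0) :=
    ⟨_, fun _ _ => Iff.rfl⟩
  refine ⟨B, ?_, fun k0 r0 h => not_lt.1 (mt (hB k0 r0).2 h)⟩
  have h1 := sum_le_sum fun u (_ : u ∈ (univ : Finset R)) => H u B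
  rw [sum_add_distrib, sum_const, sum_const, card_univ, nsmul_eq_mul, nsmul_eq_mul,
    sum_comm] at h1
  have h2 : ∑ ω, ∑ u, (if B (k ω) (σ u (r ω)) then D ω else 0) =
      ∑ r0, ∑ k0, if B k0 r0 then (∑ ω, if k ω = k0 then D ω else 0) else 0 := by
    rw [sum_congr rfl fun ω _ => (hσ (r ω)).sum_comp fun r0 => if B (k ω) r0 then D ω else 0,
      sum_comm]
    refine sum_congr rfl fun r0 _ => ?_
    have e : ∀ k0, (if B k0 r0 then (∑ ω, if k ω = k0 then D ω else 0) else 0) =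
        ∑ ω, if k ω = k0 then (if B k0 r0 then D ω else 0) else 0 := fun k0 => by
      split_ifs <;> simp
    rw [sum_congr rfl fun k0 _ => e k0, sum_comm]
    exact sum_congr rfl fun ω _ => by simp
  have h3 : ∑ ω, (if B (k ω) (r ω) then D ω else 0) =
      ∑ r0, ∑ k0, if B k0 r0 then (∑ ω, if k ω = k0 ∧ r ω = r0 then D ω else 0) else 0 := by
    have e : ∀ r0 k0, (if B k0 r0 then (∑ ω, if k ω = k0 ∧ r ω = r0 then D ω else 0) else 0) =
        ∑ ω, if k ω = k0 then (if r ω = r0 then (if B k0 r0 then D ω else 0) else 0) else 0 :=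
      fun r0 k0 => by
        split_ifs
        · exact sum_congr rfl fun ω _ => ite_and _ _ _ _
        · simp
    rw [sum_congr rfl fun r0 _ => (sum_congr rfl fun k0 _ => e r0 k0).trans sum_comm, sum_comm]
    exact sum_congr rfl fun ω _ => by simp
  have h4 : 2 * (∑ r0, ∑ k0, if B k0 r0 then (∑ ω, if k ω = k0 then D ω else 0) else 0) ≤
      (Fintype.card R : ℝ) * ∑ r0, ∑ k0,
        if B k0 r0 then (∑ ω, if k ω = k0 ∧ r ω = r0 then D ω else 0) else 0 := by
    rw [mul_sum, mul_sum]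
    refine sum_le_sum fun r0 _ => ?_
    rw [mul_sum, mul_sum]
    refine sum_le_sum fun k0 _ => ?_
    split_ifs with h
    · exact ((hB k0 r0).1 h).le
    · simp
  rw [← h2, ← h3] at h4
  have hc : (0 : ℝ) < Fintype.card R := by exact_mod_cast Fintype.card_pos
  refine le_of_mul_le_mul_left ?_ hc
  linarith

open Classical in
theorem sGood : SGood := by
  intro Ω K R _ _ _ _ _ _ D k1 k2 r σ η hD h1 hσ H1 H2
  obtain ⟨B1, a1, b1⟩ := one_Good D k1 r σ η hσ H1
  obtain ⟨B2, a2, b2⟩ := one_Good D k2 r σ η hσ H2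
  have hle : ∀ ω, (if B1 (k1 ω) (r ω) ∨ B2 (k2 ω) (r ω) then 0 else D ω) ≤ D ω := fun ω => by
    split_ifs
    exacts [hD ω, le_rfl]
  have key : ∀ (k : Ω → K) (B : K → R → Prop),
      (∀ ω, B (k ω) (r ω) → B1 (k1 ω) (r ω) ∨ B2 (k2 ω) (r ω)) →
      (∀ k0 r0, ¬ B k0 r0 →
        (Fintype.card R : ℝ) * ∑ ω, (if k ω = k0 ∧ r ω = r0 then D ω else 0) ≤
          2 * ∑ ω, if k ω = k0 then D ω else 0) → ∀ k0 r0,
      (Fintype.card R : ℝ) * ∑ ω, (if k ω = k0 ∧ r ω = r0 then
        (if B1 (k1 ω) (r ω) ∨ B2 (k2 ω) (r ω) then 0 else D ω) else 0) ≤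
          2 * ∑ ω, if k ω = k0 then D ω else 0 := by
    intro k B hB b k0 r0
    by_cases h : B k0 r0
    · rw [sum_eq_zero, mul_zero]
      · refine mul_nonneg zero_le_two (sum_nonneg fun ω _ => ?_)
        split_ifs
        exacts [hD ω, le_rfl]
      · intro ω _
        by_cases e : k ω = k0 ∧ r ω = r0
        · rw [if_pos e, if_pos (hB ω (by rw [e.1, e.2]; exact h))]
        · rw [if_neg e]
    · refine le_trans (mul_le_mul_of_nonneg_left (sum_le_sum fun ω _ => ?_) (Nat.cast_nonneg _))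
        (b k0 r0 h)
      by_cases e : k ω = k0 ∧ r ω = r0
      · rw [if_pos e, if_pos e]; exact hle ω
      · rw [if_neg e, if_neg e]
  refine ⟨fun ω => if B1 (k1 ω) (r ω) ∨ B2 (k2 ω) (r ω) then 0 else D ω, fun ω => ?_, hle, ?_,
    key k1 B1 (fun _ => Or.inl) b1, key k2 B2 (fun _ => Or.inr) b2⟩
  · beta_reduce
    split_ifs
    exacts [le_rfl, hD ω]
  · have : ∑ ω, D ω ≤ ∑ ω, ((if B1 (k1 ω) (r ω) ∨ B2 (k2 ω) (r ω) then 0 else D ω) +
        (if B1 (k1 ω) (r ω) then D ω else 0) + (if B2 (k2 ω) (r ω) then D ω else 0)) := by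
      refine sum_le_sum fun ω _ => ?_
      have := hD ω
      by_cases e1 : B1 (k1 ω) (r ω) <;> by_cases e2 : B2 (k2 ω) (r ω) <;> simp [e1, e2, this]
    rw [sum_add_distrib, sum_add_distrib] at this
    linarith

end Pool.Agent.MP0f3202.Lb

namespace Pool.Agent.MP0f3202.Lb

open Finset

/-- the first `t` entries of `h` -/
def trunc_Rect (h : ℕ → ℕ) (t : ℕ) : ℕ → ℕ := fun j => if j < t then h j else 0

theorem zero_Rect (τ : ℕ → ℕ → ℕ) (M : ℕ → (ℕ → ℕ) → ℕ) (h0 : τ 0 = fun _ => 0)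
    (hs : ∀ t, τ (t + 1) = Function.update (τ t) t (M t (τ t))) (t : ℕ) :
    ∀ j, t ≤ j → τ t j = 0 := by
  induction t with
  | zero => intro j _; rw [h0]
  | succ t ih =>
    intro j hj
    rw [hs, Function.update_of_ne (by omega)]
    exact ih j (by omega)

theorem back_Rect (τ : ℕ → ℕ → ℕ) (M : ℕ → (ℕ → ℕ) → ℕ) (h0 : τ 0 = fun _ => 0)
    (hs : ∀ t, τ (t + 1) = Function.update (τ t) t (M t (τ t))) (r : ℕ) :
    ∀ t, t ≤ r → trunc_Rect (τ r) t = τ t := by
  have top : ∀ r, trunc_Rect (τ r) r = τ r := fun r => funext fun j => by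
    unfold trunc_Rect
    split_ifs with h
    · rfl
    · exact (zero_Rect τ M h0 hs r j (by omega)).symm
  induction r with
  | zero => intro t ht; obtain rfl : t = 0 := by omega
            exact top 0
  | succ r ih =>
    intro t ht
    rcases Nat.lt_or_ge r t with h | h
    · obtain rfl : t = r + 1 := by omega
      exact top _
    · rw [← ih t h]
      funext j
      unfold trunc_Rect
      split_ifs with hj
      · rw [hs, Function.update_of_ne (by omega)]
      · rfl

theorem self_Rect (τ : ℕ → ℕ → ℕ) (M : ℕ → (ℕ → ℕ) → ℕ) (h0 : τ 0 = fun _ => 0)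
    (hs : ∀ t, τ (t + 1) = Function.update (τ t) t (M t (τ t))) (r t : ℕ) (ht : t < r) :
    τ r t = M t (trunc_Rect (τ r) t) := by
  rw [back_Rect τ M h0 hs r t ht.le]
  have h := congrFun (back_Rect τ M h0 hs r (t + 1) ht) t
  rw [hs, Function.update_self] at h
  rw [← h]
  simp [trunc_Rect]

theorem uniq_Rect (τ : ℕ → ℕ → ℕ) (M : ℕ → (ℕ → ℕ) → ℕ) (h0 : τ 0 = fun _ => 0)
    (hs : ∀ t, τ (t + 1) = Function.update (τ t) t (M t (τ t))) (r : ℕ) (h : ℕ → ℕ)
    (hh : ∀ t, t < r → h t = M t (trunc_Rect h t)) : ∀ t, t ≤ r → τ t = trunc_Rect h t := by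
  intro t
  induction t with
  | zero => intro _; rw [h0]; funext j; simp [trunc_Rect]
  | succ t ih =>
    intro ht
    rw [hs, ih (by omega), ← hh t (by omega)]
    funext j
    by_cases hj : j = t
    · subst hj; simp [trunc_Rect]
    · rw [Function.update_of_ne hj]
      unfold trunc_Rect
      by_cases h1 : j < t
      · rw [if_pos h1, if_pos (by omega)]
      · rw [if_neg h1, if_neg (by omega)]

theorem loc_Rect {N n S : ℕ} (owner : Fin n → Fin N) (μ : Fin n → (Fin S → Bool) → Bool)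
    (z : Fin n → Bool) (A : Finset (Fin N)) (ρ : Key N S) (p : Fin N) (hp : p ∈ A) :
    loc owner p (inp owner μ z (part A ρ)) = loc owner p (inp owner μ z ρ) := by
  funext i
  unfold loc inp part
  by_cases h : owner i = p
  · rw [if_pos h, if_pos h, h, if_pos hp]
  · rw [if_neg h, if_neg h]

theorem sRect : SRect := by
  classical
  intro N n S P owner rd μ p0 z c hM
  obtain ⟨hinj, hrd⟩ := hM
  let ln : ℕ → ℕ := fun t => if ∃ i, rd i = t then 0 else P.len t
  have hcomm : P.comm = ∑ t ∈ range P.rounds, ln t + n := by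
    have e1 : ∀ t, P.len t = ln t + if ∃ i, rd i = t then 1 else 0 := fun t => by
      simp only [ln]
      split_ifs with h
      · obtain ⟨i, rfl⟩ := h
        rw [(hrd i).2.2.1]
      · rfl
    have e2 : (range P.rounds).filter (fun t => ∃ i, rd i = t) = univ.image rd := by
      ext t
      simp only [mem_filter, mem_range, mem_image, mem_univ, true_and]
      exact ⟨fun h => h.2, fun h => ⟨by obtain ⟨i, rfl⟩ := h; exact (hrd i).1, h⟩⟩
    unfold RProt.comm
    rw [sum_congr rfl fun t _ => e1 t, sum_add_distrib, ← card_filter, e2,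
      card_image_of_injective _ hinj, card_univ, Fintype.card_fin]
  refine ⟨by omega, ?_⟩
  let al : ℕ → Finset ℕ := fun t =>
    (range (2 ^ P.len t)).filter fun v => ∀ i, rd i = t → v = (z i).toNat
  have hal : ∀ t, (al t).card ≤ 2 ^ ln t := fun t => by
    simp only [ln]
    split_ifs with h
    · obtain ⟨i, hi⟩ := h
      rw [pow_zero, card_le_one]
      intro a ha b hb
      rw [(mem_filter.1 ha).2 i hi, (mem_filter.1 hb).2 i hi]
    · exact (card_filter_le _ _).trans (card_range _).le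
  let ex : (Fin P.rounds → ℕ) → ℕ → ℕ := fun f t => if h : t < P.rounds then f ⟨t, h⟩ else 0
  let ok : Key N S → (ℕ → ℕ) → Finset (Fin N) → Prop := fun k h A => ∀ t, t < P.rounds →
    P.spk t ∈ A → h t = P.msg t (loc owner (P.spk t) (inp owner μ z k)) (k (P.spk t))
      (c (P.spk t)) (trunc_Rect h t)
  refine ⟨(Fintype.piFinset fun t : Fin P.rounds => al t).image ex,
    fun h k => if ok k h {p0} then
      chi (P.out p0 (loc owner p0 (inp owner μ z k)) (k p0) (c p0) h 0) else 0,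
    fun h k => if ok k h {p0}ᶜ then 1 else 0, ?_, fun h k => ?_, fun h k => ?_, fun ρ => ?_⟩
  · refine card_image_le.trans ?_
    rw [Fintype.card_piFinset]
    refine (prod_le_prod' fun (t : Fin P.rounds) _ => hal t).trans ?_
    rw [prod_pow_eq_pow_sum, Fin.sum_univ_eq_sum_range ln, hcomm, Nat.add_sub_cancel]
  · beta_reduce
    split_ifs
    · unfold chi; split_ifs <;> simp
    · simp
  · beta_reduce
    split_ifs <;> simp
  · let τ := P.tr owner (inp owner μ z ρ) ρ c
    let M : ℕ → (ℕ → ℕ) → ℕ := fun t h =>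
      P.msg t (loc owner (P.spk t) (inp owner μ z ρ)) (ρ (P.spk t)) (c (P.spk t)) h
    have h0 : τ 0 = fun _ => 0 := rfl
    have hs : ∀ t, τ (t + 1) = Function.update (τ t) t (M t (τ t)) := fun t => rfl
    have hok : ∀ (A : Finset (Fin N)) (h : ℕ → ℕ), ok (part A ρ) h A ↔
        ∀ t, t < P.rounds → P.spk t ∈ A → h t = M t (trunc_Rect h t) := fun A h => by
      refine forall_congr' fun t => forall_congr' fun _ => forall_congr' fun hp => ?_
      rw [loc_Rect owner μ z A ρ _ hp, show part A ρ (P.spk t) = ρ (P.spk t) from if_pos hp]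
    have hp0 : p0 ∈ ({p0} : Finset (Fin N)) := mem_singleton_self _
    beta_reduce
    rw [sum_eq_single (τ P.rounds)]
    · rw [if_pos ((hok _ _).2 fun t ht _ => self_Rect τ M h0 hs _ t ht),
        if_pos ((hok _ _).2 fun t ht _ => self_Rect τ M h0 hs _ t ht), mul_one,
        loc_Rect owner μ z _ ρ _ hp0, show part {p0} ρ p0 = ρ p0 from if_pos hp0]
    · intro h hT hne
      by_cases a1 : ok (part {p0} ρ) h {p0}
      · by_cases a2 : ok (part {p0}ᶜ ρ) h {p0}ᶜ
        · exfalso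
          apply hne
          have a3 := uniq_Rect τ M h0 hs P.rounds h (fun t ht => by
            by_cases hp : P.spk t ∈ ({p0} : Finset (Fin N))
            · exact (hok _ _).1 a1 t ht hp
            · exact (hok _ _).1 a2 t ht (mem_compl.2 hp)) _ le_rfl
          rw [a3]
          obtain ⟨f, -, rfl⟩ := mem_image.1 hT
          funext j
          unfold trunc_Rect
          split_ifs with hj
          · rfl
          · exact dif_neg hj
        · rw [if_neg a2, mul_zero]
      · rw [if_neg a1, zero_mul]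
    · intro hT
      exfalso
      apply hT
      refine mem_image.2 ⟨fun t => τ P.rounds t, Fintype.mem_piFinset.2 fun t => ?_, ?_⟩
      · refine mem_filter.2 ⟨mem_range.2 ?_, fun i hi => ?_⟩
        · rw [self_Rect τ M h0 hs _ t t.2]
          exact P.msg_lt _ _ _ _ _
        · rw [self_Rect τ M h0 hs _ t t.2, ← hi]
          simp only [M]
          rw [(hrd i).2.2.2, (hrd i).2.1]
          simp [loc, inp]
      · funext j
        simp only [ex]
        split_ifs with hj
        · rfl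
        · exact (zero_Rect τ M h0 hs _ j (by omega)).symm

end Pool.Agent.MP0f3202.Lb

/-! Privacy makes the hidden label almost independent of the strings of either side. -/

namespace Pool.Agent.MP0f3202.Lb

open Finset

open Classical in
theorem pr_Priv {N n m S : ℕ} (P : RProt N n m S)
    (E : Key N S → (Fin N → Fin P.K → Bool) → Prop) (G : Key N S → Prop)
    (h : ∀ ρ c, E ρ c ↔ G ρ) : P.pr E = ∑ ρ, if G ρ then P.D ρ else 0 := by
  unfold RProt.pr
  refine sum_congr rfl fun ρ _ => ?_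
  simp only [h]
  split_ifs
  · rw [sum_const, card_univ, nsmul_eq_mul]
    simp only [Fintype.card_fun, Fintype.card_bool, Fintype.card_fin]
    push_cast
    rw [← pow_mul, mul_comm P.K N]
    field_simp
  · simp

theorem tr_Priv {N n m S : ℕ} (P : RProt N n m S) (owner : Fin n → Fin N) (x : Fin n → Bool)
    (ρ : Key N S) (c : Fin N → Fin P.K → Bool) (j t : ℕ) (h : j < t) :
    P.tr owner x ρ c t j = P.tr owner x ρ c (j + 1) j := by
  induction t with
  | zero => omega
  | succ t ih =>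
    rcases Nat.lt_succ_iff_lt_or_eq.1 h with h' | rfl
    · rw [RProt.tr, Function.update_of_ne h'.ne, ih h']
    · rfl

theorem msg_Priv {N n m S : ℕ} {P : RProt N n m S} {owner : Fin n → Fin N} {rd : Fin n → ℕ}
    {μ : Fin n → (Fin S → Bool) → Bool} (hM : Mk P owner rd μ) (x : Fin n → Bool)
    (ρ : Key N S) (c : Fin N → Fin P.K → Bool) (i : Fin n) :
    decide (P.tr owner x ρ c P.rounds (rd i) = 1) = xor (x i) (μ i (ρ (owner i))) := by
  obtain ⟨h1, h2, -, h4⟩ := hM.2 i
  rw [tr_Priv P owner x ρ c _ _ h1, RProt.tr, Function.update_self, h4, h2]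
  simp only [loc, if_true]
  cases x i <;> cases μ i (ρ (owner i)) <;> rfl

theorem F_Priv {n M b : ℕ} {e : Bool × Fin M × Fin (b + 1) ≃ Fin n}
    {F : (Fin n → Bool) → Fin 1 → Bool} (hF : IsEq e F) (x : Fin n → Bool) (sd : Bool)
    (β : Fin (b + 1)) (h : ∀ l, x (e (sd, l, β)) ≠ x (e (!sd, l, β))) : F x = fun _ => false := by
  have h1 := hF x
  rw [prod_eq_one fun l _ => if_neg fun hh => h l (by cases sd; exacts [hh β, (hh β).symm])] at h1
  funext i
  obtain rfl : i = 0 := Subsingleton.elim _ _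
  cases hx : F x 0
  · rfl
  · rw [hx, chi, if_pos rfl] at h1
    norm_num at h1

theorem sPriv : SPriv := by
  intro N n S M b P owner rd μ p0 p1 e F η g hb hp ho hF hM hS A hA u B
  have hA' : A.Nonempty := by
    rcases hA with rfl | rfl
    exacts [⟨p0, by simp⟩, ⟨p1, by simp [hp.symm]⟩]
  obtain ⟨sd, hne, hin, hout⟩ : ∃ sd : Bool, A ≠ univ ∧ (∀ l β, owner (e (sd, l, β)) ∈ A) ∧
      ∀ l β, owner (e (!sd, l, β)) ∉ A := by
    rcases hA with rfl | rfl
    · refine ⟨false, fun h => ?_, fun l β => by simp [ho], fun l β => by simp [ho, hp.symm]⟩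
      have : p1 ∈ ({p0} : Finset (Fin N)) := h ▸ mem_univ p1
      exact hp (mem_singleton.1 this).symm
    · refine ⟨true, fun h => ?_, fun l β => by simp [ho, hp.symm], fun l β => by simp [ho]⟩
      have : p0 ∈ ({p0}ᶜ : Finset (Fin N)) := h ▸ mem_univ p0
      simp at this
  let y : Lab' M b → Fin n → Bool := fun v i =>
    if (e.symm i).1 = sd then
      (if (e.symm i).2.2 = 0 then true else !u (e.symm i).2.1 (e.symm i).2.2)
    else v (e.symm i).2.1 (e.symm i).2.2
  have y1 : ∀ v l β, y v (e (sd, l, β)) = if β = 0 then true else !u l β := by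
    intro v l β; simp [y]
  have y2 : ∀ v l β, y v (e (!sd, l, β)) = v l β := by
    intro v l β; simp [y]
  have hl : Fin.last b ≠ 0 := fun h => by
    have := congrArg Fin.val h
    simp at this
    omega
  obtain ⟨z, hz⟩ : ∃ z : Lab' M b, ∀ l β, z l β = false := ⟨fun _ _ => false, fun _ _ => rfl⟩
  have f1 : F (y z) = fun _ => false :=
    F_Priv hF _ sd 0 fun l => by rw [y1, y2, hz]; simp
  have f2 : F (y u) = fun _ => false :=
    F_Priv hF _ sd (Fin.last b) fun l => by rw [y1, y2, if_neg hl]; simp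
  have ag : ∀ i, owner i ∈ A → y z i = y u i := by
    intro i hi
    obtain ⟨⟨s, l, β⟩, rfl⟩ := e.surjective i
    by_cases hs : s = sd
    · subst hs; rw [y1, y1]
    · obtain rfl : s = !sd := by cases s <;> cases sd <;> simp_all
      exact absurd hi (hout l β)
  have key := hS.2 A hA' hne _ _ ag (f1.trans f2.symm) fun k h => B k fun l β =>
    xor (xor (g (e (sd, l, β))) (μ (e (sd, l, β)) (k (owner (e (sd, l, β))))))
      (xor (g (e (!sd, l, β))) (decide (h (rd (e (!sd, l, β))) = 1)))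
  have ev : ∀ (v : Lab' M b) (ρ : Key N S) (c : Fin N → Fin P.K → Bool), (fun l β =>
      xor (xor (g (e (sd, l, β))) (μ (e (sd, l, β)) (part A ρ (owner (e (sd, l, β))))))
        (xor (g (e (!sd, l, β)))
          (decide (P.tr owner (y v) ρ c P.rounds (rd (e (!sd, l, β))) = 1)))) =
      fun l β => xor (v l β) (lab owner μ e g ρ l β) := by
    intro v ρ c
    funext l β
    rw [msg_Priv hM, y2, part, if_pos (hin l β)]
    cases sd <;> simp only [lab, inp, Bool.not_false, Bool.not_true] <;>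
      generalize μ (e (false, l, β)) _ = a <;> generalize μ (e (true, l, β)) _ = a' <;>
      cases v l β <;> cases g (e (false, l, β)) <;> cases g (e (true, l, β)) <;>
      cases a <;> cases a' <;> rfl
  rw [pr_Priv P _ (fun ρ => B (part A ρ) (lab owner μ e g ρ))
      (fun ρ c => by rw [ev]; simp only [hz, Bool.false_xor]),
    pr_Priv P _ (fun ρ => B (part A ρ) fun l β => xor (u l β) (lab owner μ e g ρ l β))
      (fun ρ c => by rw [ev])] at key
  exact key

end Pool.Agent.MP0f3202.Lb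

namespace Pool.Agent.MP0f3202.Lb

open Finset

lemma bij_Err {N n S : ℕ} (owner : Fin n → Fin N) (μ : Fin n → (Fin S → Bool) → Bool)
    (z : Fin n → Bool) (ρ : Key N S) :
    Function.Bijective fun g : Fin n → Bool => inp owner μ (fun q => xor (z q) (g q)) ρ := by
  refine Function.Involutive.bijective fun g => ?_
  funext q
  simp only [inp]
  cases z q <;> cases g q <;> cases μ q (ρ (owner q)) <;> rfl

theorem sErr : SErr := by
  classical
  intro N n S P owner μ I _ pat Wr η hη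
  have hp : (0 : ℝ) < 2 ^ (N * P.K) := by positivity
  have h1 : ∀ x, ∑ ρ, ∑ c : Fin N → Fin P.K → Bool, (if Wr x ρ c then P.D ρ else 0) ≤
      2 ^ (N * P.K) * η := by
    intro x
    refine le_trans (le_of_eq ?_) (mul_le_mul_of_nonneg_left (hη x) hp.le)
    rw [RProt.pr, mul_sum]
    refine sum_congr rfl fun ρ _ => ?_
    rw [mul_sum]
    refine sum_congr rfl fun c _ => ?_
    split_ifs
    · rw [mul_div_cancel₀ _ hp.ne']
    · rw [mul_zero]
  have h2 : ∀ i, ∑ g : Fin n → Bool, ∑ c : Fin N → Fin P.K → Bool, ∑ ρ,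
      (if Wr (inp owner μ (fun q => xor (pat i q) (g q)) ρ) ρ c then P.D ρ else 0) ≤
      ∑ _g : Fin n → Bool, 2 ^ (N * P.K) * η := by
    intro i
    refine le_trans (le_of_eq ?_) (sum_le_sum fun x _ => h1 x)
    rw [sum_congr rfl fun g _ => sum_comm, sum_comm, sum_comm (s := (univ : Finset (Fin n → Bool)))]
    refine sum_congr rfl fun ρ _ => ?_
    exact (bij_Err owner μ (pat i) ρ).sum_comp
      fun x => ∑ c : Fin N → Fin P.K → Bool, if Wr x ρ c then P.D ρ else 0
  have h3 : ∑ p : (Fin n → Bool) × (Fin N → Fin P.K → Bool), ∑ i, ∑ ρ,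
      (if Wr (inp owner μ (fun q => xor (pat i q) (p.1 q)) ρ) ρ p.2 then P.D ρ else 0) ≤
      ∑ _p : (Fin n → Bool) × (Fin N → Fin P.K → Bool), Fintype.card I * η := by
    rw [sum_comm]
    simp only [Fintype.sum_prod_type]
    refine (sum_le_sum fun i _ => h2 i).trans (le_of_eq ?_)
    simp only [sum_const, card_univ, nsmul_eq_mul, Fintype.card_fun, Fintype.card_bool,
      Fintype.card_fin]
    push_cast
    rw [← pow_mul, mul_comm P.K N]
    ring
  obtain ⟨p, -, h⟩ := exists_le_of_sum_le univ_nonempty h3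
  exact ⟨p.1, p.2, h⟩

end Pool.Agent.MP0f3202.Lb

namespace Pool.Agent.MP0f3202.Lb

open Finset

/-- the operation at level `t` -/
def op_Circ (j t : ℕ) : Bool → Bool → Bool :=
  if t = 1 then fun a b => a == b else if t ≤ j + 1 then fun a b => a && b else fun a b => xor a b

/-- the value of node `v` of level `t` of the tree with leaf values `Y` -/
def val_Circ (j : ℕ) (Y : ℕ → Bool) : ℕ → ℕ → Bool
  | 0, v => Y v
  | t + 1, v => op_Circ j (t + 1) (val_Circ j Y t (2 * v)) (val_Circ j Y t (2 * v + 1))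

theorem and_Circ (j : ℕ) (Y : ℕ → Bool) (t : ℕ) (ht : t ≤ j) (v : ℕ) :
    val_Circ j Y (t + 1) v = true ↔
      ∀ β < 2 ^ t, Y (2 * (v * 2 ^ t + β)) = Y (2 * (v * 2 ^ t + β) + 1) := by
  induction t generalizing v with
  | zero => simp [val_Circ, op_Circ]
  | succ t ih =>
    have e : op_Circ j (t + 1 + 1) = fun a b => a && b := by
      rw [op_Circ, if_neg (by omega), if_pos (by omega)]
    have e0 : ∀ β, 2 * v * 2 ^ t + β = v * 2 ^ (t + 1) + β := fun β => by ring
    have e1 : ∀ β, (2 * v + 1) * 2 ^ t + β = v * 2 ^ (t + 1) + (2 ^ t + β) := fun β => by ring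
    rw [val_Circ, e, Bool.and_eq_true, ih (by omega), ih (by omega)]
    simp only [e0, e1]
    have e2 : 2 ^ (t + 1) = 2 ^ t + 2 ^ t := by ring
    refine ⟨fun h β hβ => ?_, fun h => ⟨fun β hβ => h β (by omega), fun β hβ => h _ (by omega)⟩⟩
    by_cases c : β < 2 ^ t
    · exact h.1 β c
    · obtain ⟨γ, rfl⟩ := Nat.exists_eq_add_of_le (not_lt.1 c)
      exact h.2 γ (by omega)

theorem chi_Circ (a b : Bool) : chi (xor a b) = chi a * chi b := by
  cases a <;> cases b <;> simp [chi]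

theorem xor_Circ (j : ℕ) (Y : ℕ → Bool) (a v : ℕ) :
    chi (val_Circ j Y (j + 1 + a) v) =
      ∏ l ∈ range (2 ^ a), chi (val_Circ j Y (j + 1) (v * 2 ^ a + l)) := by
  induction a generalizing v with
  | zero => simp
  | succ a ih =>
    have e : op_Circ j (j + 1 + a + 1) = fun a b => xor a b := by
      rw [op_Circ, if_neg (by omega), if_neg (by omega)]
    have e0 : ∀ β, 2 * v * 2 ^ a + β = v * 2 ^ (a + 1) + β := fun β => by ring
    have e1 : ∀ β, (2 * v + 1) * 2 ^ a + β = v * 2 ^ (a + 1) + (2 ^ a + β) := fun β => by ring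
    have e2 : range (2 ^ (a + 1)) = range (2 ^ a + 2 ^ a) := by congr 1; ring
    rw [← add_assoc, val_Circ, e, e2, prod_range_add]
    simp only [chi_Circ, ih, e0, e1]

theorem log0_Circ {v : ℕ} (hv : v ≠ 0) : Nat.log 2 (2 * v) = Nat.log 2 v + 1 := by
  rw [mul_comm, Nat.log_mul_base one_lt_two hv]

theorem log1_Circ {v : ℕ} (hv : v ≠ 0) : Nat.log 2 (2 * v + 1) = Nat.log 2 v + 1 := by
  rw [Nat.log_of_one_lt_of_le one_lt_two (by omega)]
  congr 2
  omega

/-- the labels of the tree -/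
def lab_Circ (j h n L : ℕ) (lf : ℕ → Option (Fin n)) (v : Fin (2 * L)) : Lab n (2 * L) :=
  if v.1 = 0 then Lab.const false else
    if hv : v.1 < L then
      Lab.gate (op_Circ j (h - Nat.log 2 v.1)) ⟨2 * v.1, by omega⟩ ⟨2 * v.1 + 1, by omega⟩
    else (lf (v.1 - L)).elim (Lab.const false) Lab.inp

/-- the tree as a layered circuit -/
def tree_Circ (j h n L : ℕ) (lf : ℕ → Option (Fin n)) (hn : L = 2 ^ h) :
    Circ n 1 (2 * L) (h + 1) where
  lab := lab_Circ j h n L lf
  lev v := h - Nat.log 2 v.1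
  out _ := ⟨1, by have := Nat.two_pow_pos h; omega⟩
  lev_lt v := by omega
  wire v op a b hl := by
    unfold lab_Circ at hl
    split_ifs at hl with h0 h1
    · injection hl with _ ha hb
      subst ha hb
      have := Nat.log_lt_of_lt_pow h0 (hn ▸ h1 : v.1 < 2 ^ h)
      simp only [log0_Circ h0, log1_Circ h0]
      omega
    · cases hq : lf (v.1 - L) <;> rw [hq] at hl <;> cases hl

theorem ev_Circ (j h n L : ℕ) (lf : ℕ → Option (Fin n)) (hn : L = 2 ^ h) (x : Fin n → Bool)
    (t : ℕ) (v : Fin (2 * L)) (h0 : v.1 ≠ 0) (hv : Nat.log 2 v.1 + t = h) :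
    (tree_Circ j h n L lf hn).ev x (t + 1) v =
      val_Circ j (fun u => (lf (u - L)).elim false x) t v.1 := by
  induction t generalizing v with
  | zero =>
    have h1 : ¬ v.1 < L := fun c => by
      have := Nat.log_lt_of_lt_pow h0 (hn ▸ c : v.1 < 2 ^ h)
      omega
    have e : (tree_Circ j h n L lf hn).lab v = (lf (v.1 - L)).elim (Lab.const false) Lab.inp := by
      change lab_Circ j h n L lf v = _
      rw [lab_Circ, if_neg h0, dif_neg h1]
    rw [Circ.ev, e, val_Circ]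
    cases lf (v.1 - L) <;> rfl
  | succ t ih =>
    have h1 : v.1 < L := (Nat.lt_pow_of_log_lt one_lt_two (by omega)).trans_eq hn.symm
    have e : (tree_Circ j h n L lf hn).lab v = Lab.gate (op_Circ j (t + 1)) ⟨2 * v.1, by omega⟩
        ⟨2 * v.1 + 1, by omega⟩ := by
      change lab_Circ j h n L lf v = _
      rw [lab_Circ, if_neg h0, dif_pos h1, show h - Nat.log 2 v.1 = t + 1 by omega]
    rw [Circ.ev, e, val_Circ]
    simp only
    rw [ih _ (by simpa using h0) (by simp only [log0_Circ h0]; omega),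
      ih _ (by simp) (by simp only [log1_Circ h0]; omega)]

/-- the input read by a leaf -/
def lf_Circ {n M b : ℕ} (e : Bool × Fin M × Fin (b + 1) ≃ Fin n) (J u : ℕ) : Option (Fin n) :=
  if h : u / 2 / J < M ∧ u / 2 % J < b + 1 then
    some (e (decide (u % 2 = 1), ⟨u / 2 / J, h.1⟩, ⟨u / 2 % J, h.2⟩)) else none

theorem lf_eq_Circ {n M b : ℕ} (e : Bool × Fin M × Fin (b + 1) ≃ Fin n) (J : ℕ) (l : Fin M)
    (β r : ℕ) (hβ : β < J) (hr : r < 2) :
    lf_Circ e J (2 * (l.1 * J + β) + r) =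
      if h : β < b + 1 then some (e (decide (r = 1), l, ⟨β, h⟩)) else none := by
  have h1 : (2 * (l.1 * J + β) + r) / 2 = β + J * l.1 := by rw [mul_comm J]; omega
  have h2 : (2 * (l.1 * J + β) + r) % 2 = r := by omega
  have h3 : (β + J * l.1) / J = l.1 := by
    rw [Nat.add_mul_div_left _ _ (by omega), Nat.div_eq_of_lt hβ, zero_add]
  have h4 : (β + J * l.1) % J = β := by rw [Nat.add_mul_mod_self_left, Nat.mod_eq_of_lt hβ]
  simp only [lf_Circ, h1, h2, h3, h4, l.2, true_and]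

theorem sCirc : SCirc := by
  classical
  intro i j b hb
  obtain ⟨e⟩ : Nonempty (Bool × Fin (2 ^ i) × Fin (b + 1) ≃ Fin (2 * (2 ^ i * (b + 1)))) :=
    ⟨Fintype.equivFinOfCardEq (by simp)⟩
  refine ⟨_, _, _, tree_Circ j (j + 1 + i) _ _ (lf_Circ e (2 ^ j)) rfl, e, rfl, by ring,
    fun x => ?_⟩
  have e1 : (tree_Circ j (j + 1 + i) _ _ (lf_Circ e (2 ^ j)) rfl).fn x 0 =
      val_Circ j _ (j + 1 + i) 1 :=
    ev_Circ j _ _ _ _ rfl x (j + 1 + i)
      ((tree_Circ j (j + 1 + i) _ _ (lf_Circ e (2 ^ j)) rfl).out 0) one_ne_zero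
      (by change Nat.log 2 1 + _ = _; simp)
  rw [e1, xor_Circ, prod_range]
  refine prod_congr rfl fun l _ => ?_
  have e2 : ∀ β : ℕ, 2 * ((1 * 2 ^ i + l.1) * 2 ^ j + β) =
      2 ^ (j + 1 + i) + 2 * (l.1 * 2 ^ j + β) := fun β => by ring
  rw [chi]
  refine if_congr ?_ rfl rfl
  rw [and_Circ j _ j le_rfl, Fin.forall_iff]
  have k : ∀ β < 2 ^ j, ∀ r < 2, lf_Circ e (2 ^ j)
      (2 * ((1 * 2 ^ i + l.1) * 2 ^ j + β) + r - 2 ^ (j + 1 + i)) =
      if h : β < b + 1 then some (e (decide (r = 1), l, ⟨β, h⟩)) else none := fun β hβ r hr => by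
    rw [e2, add_assoc, Nat.add_sub_cancel_left, lf_eq_Circ e _ l β r hβ hr]
  refine ⟨fun h β hβ => ?_, fun h β hβ => ?_⟩
  · have h0 := k β (by omega) 0 (by omega)
    have h1 := k β (by omega) 1 (by omega)
    have h2 := h β (by omega)
    rw [add_zero] at h0
    rw [h0, h1, dif_pos hβ, dif_pos hβ] at h2
    exact h2
  · have h0 := k β hβ 0 (by omega)
    have h1 := k β hβ 1 (by omega)
    rw [add_zero] at h0
    rw [h0, h1]
    by_cases c : β < b + 1
    · rw [dif_pos c, dif_pos c]; exact h β c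
    · rw [dif_neg c, dif_neg c]

end Pool.Agent.MP0f3202.Lb

namespace Pool.Agent.MP0f3202.Lb

open Finset

/-- the public pattern of run `a` for the table `w` -/
def pat_Low {n M b : ℕ} (e : Bool × Fin M × Fin (b + 1) ≃ Fin n) (wa : Db M b × (Fin b → Bool))
    (q : Fin n) : Bool :=
  if (e.symm q).1 then false
  else (Fin.cons (wa.1 (e.symm q).2.1 wa.2) wa.2 : Fin (b + 1) → Bool) (e.symm q).2.2

theorem abs_chi_Low (v : Bool) : |chi v| = 1 := by cases v <;> simp [chi]

theorem sg_sq_Low {M b : ℕ} (w : Db M b) (r : Lab' M b) : sg w r * sg w r = 1 := by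
  rw [sg, ← prod_mul_distrib]
  exact prod_eq_one fun l _ => by split_ifs <;> norm_num

theorem abs_sg_Low {M b : ℕ} (w : Db M b) (r : Lab' M b) : |sg w r| = 1 := by
  rw [sg, abs_prod]
  exact prod_eq_one fun l _ => by split_ifs <;> norm_num

theorem prod_chi_Low {N n S M b : ℕ} (owner : Fin n → Fin N) (μ : Fin n → (Fin S → Bool) → Bool)
    (e : Bool × Fin M × Fin (b + 1) ≃ Fin n) {F : (Fin n → Bool) → Fin 1 → Bool} (hF : IsEq e F)
    (g : Fin n → Bool) (ρ : Key N S) (w : Db M b) :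
    ∏ a : Fin b → Bool, chi (F (inp owner μ (fun q => xor (pat_Low e (w, a) q) (g q)) ρ) 0) =
      sg w (lab owner μ e g ρ) := by
  classical
  simp only [hF _]
  rw [prod_comm, sg]
  refine prod_congr rfl fun l _ => ?_
  have k : ∀ a : Fin b → Bool,
      (∀ β, inp owner μ (fun q => xor (pat_Low e (w, a) q) (g q)) ρ (e (false, l, β)) =
        inp owner μ (fun q => xor (pat_Low e (w, a) q) (g q)) ρ (e (true, l, β))) ↔
      (Fin.cons (w l a) a : Fin (b + 1) → Bool) = lab owner μ e g ρ l := fun a => by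
    rw [funext_iff]
    refine forall_congr' fun β => ?_
    simp only [inp, lab, pat_Low, Equiv.symm_apply_apply, if_true, Bool.false_eq_true, if_false]
    generalize (Fin.cons (w l a) a : Fin (b + 1) → Bool) β = v1
    generalize g (e (false, l, β)) = v2
    generalize g (e (true, l, β)) = v3
    generalize μ (e (false, l, β)) _ = v4
    generalize μ (e (true, l, β)) _ = v5
    revert v1 v2 v3 v4 v5
    decide
  generalize lab owner μ e g ρ l = r at k ⊢
  rw [prod_eq_single (Fin.tail r)]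
  · refine if_congr ((k _).trans ⟨fun h => ?_, fun h => ?_⟩) rfl rfl
    · rw [← h]; rfl
    · rw [h, Fin.cons_self_tail]
  · intro a _ ha
    rw [if_neg fun h => ha (by rw [← (k a).1 h, Fin.tail_cons])]
  · intro h; exact (h (mem_univ _)).elim

theorem sLow (hCore : SCore) (hGood : SGood) (hRect : SRect) (hPriv : SPriv) (hErr : SErr) :
    SLow := by
  classical
  intro N n S M b j P owner p0 p1 e F η hj hb hp how hF hM hS hη
  obtain ⟨rd, μ, hM⟩ := hM
  have hMk : Mk P owner rd μ := hM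
  have hb1 : 1 ≤ b := by
    rcases b with _ | b
    · rw [pow_zero] at hb; omega
    · omega
  obtain ⟨g, c, hgc⟩ := hErr N n S P owner μ _ (pat_Low e) _ η hS.1
  have hbij : ∀ r0 : Lab' M b,
      Function.Bijective fun u : Lab' M b => fun l β => xor (u l β) (r0 l β) := fun r0 =>
    Function.Involutive.bijective fun u => by funext l β; simp
  obtain ⟨D', d0, d1, d2, d3, d4⟩ := hGood (Key N S) (Key N S) (Lab' M b) P.D (part {p0})
    (part {p0}ᶜ) (lab owner μ e g) (fun u r l β => xor (u l β) (r l β)) η P.D_nonneg P.D_sum hbij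
    (hPriv N n S M b P owner rd μ p0 p1 e F η g hb1 hp how hF hMk hS _ (Or.inl rfl))
    (hPriv N n S M b P owner rd μ p0 p1 e F η g hb1 hp how hF hMk hS _ (Or.inr rfl))
  choose T a a' hT ha ha' hrun using fun wa : Db M b × (Fin b → Bool) =>
    (hRect N n S P owner rd μ p0 (fun q => xor (pat_Low e wa q) (g q)) c hMk).2
  refine ⟨(hRect N n S P owner rd μ p0 g c hMk).1, ?_⟩
  have hA : Fintype.card (Fin b → Bool) = 2 ^ b := by simp
  have key := hCore (Key N S) (Key N S) ((Fin b → Bool) → ℕ → ℕ) M b j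
    ((2 ^ (P.comm - n)) ^ 2 ^ b) P.D D' (part {p0}) (part {p0}ᶜ) (lab owner μ e g)
    (fun w => Fintype.piFinset fun v => T (w, v)) (fun w t k => ∏ v, a (w, v) (t v) k)
    (fun w t k => ∏ v, a' (w, v) (t v) k) hj hb P.D_nonneg P.D_sum d0 d3 d4 (fun w => ?_)
    (fun w t k => ?_) (fun w t k => ?_) ?_
  · have hK : Fintype.card (Key N S) = 2 ^ (N * S) := by
      simp only [Fintype.card_fun, Fintype.card_bool, Fintype.card_fin]
      rw [← pow_mul, mul_comm]
    rw [hK, show 2 * 2 ^ (N * S) * (4 * (2 ^ (P.comm - n)) ^ 2 ^ b) ^ 2 ^ j =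
      2 ^ (N * S + 1 + 2 ^ j * (2 + 2 ^ b * (P.comm - n))) by
        rw [← pow_mul, show 4 = 2 ^ 2 by norm_num, ← pow_add, ← pow_mul, ← pow_succ', ← pow_add]
        congr 1; ring] at key
    exact (Nat.pow_le_pow_iff_right (by norm_num)).1 key
  · rw [Fintype.card_piFinset, ← hA, ← card_univ]
    exact prod_le_pow_card _ _ _ fun v _ => hT _
  · rw [abs_prod]; exact prod_le_one (fun _ _ => abs_nonneg _) fun v _ => ha _ _ _
  · rw [abs_prod]; exact prod_le_one (fun _ _ => abs_nonneg _) fun v _ => ha' _ _ _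
  · set Wr := fun (x : Fin n → Bool) (ρ : Key N S) => ∃ p,
      P.out p (loc owner p x) (ρ p) (c p) (P.tr owner x ρ c P.rounds) ≠ F x with hWr
    set X := fun (wa : Db M b × (Fin b → Bool)) (ρ : Key N S) =>
      inp owner μ (fun q => xor (pat_Low e wa q) (g q)) ρ with hX
    have hgc' : ∑ wa, ∑ ρ, (if Wr (X wa ρ) ρ then P.D ρ else 0) ≤
        Fintype.card (Db M b) * 2 ^ b * η := by
      rw [Fintype.card_prod, hA] at hgc
      push_cast at hgc
      convert hgc using 4
    have one : ∀ (w : Db M b) (ρ : Key N S),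
        D' ρ - 2 * ∑ v, (if Wr (X (w, v) ρ) ρ then P.D ρ else 0) ≤
        D' ρ * (sg w (lab owner μ e g ρ) * ∑ t ∈ Fintype.piFinset fun v => T (w, v),
          (∏ v, a (w, v) (t v) (part {p0} ρ)) * ∏ v, a' (w, v) (t v) (part {p0}ᶜ ρ)) := by
      intro w ρ
      simp only [← prod_mul_distrib]
      rw [← prod_univ_sum (fun v => T (w, v))
        fun v h => a (w, v) h (part {p0} ρ) * a' (w, v) h (part {p0}ᶜ ρ)]
      simp only [hrun]
      have nn : ∀ v ∈ (univ : Finset (Fin b → Bool)),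
          0 ≤ if Wr (X (w, v) ρ) ρ then P.D ρ else 0 := fun v _ => by
        split_ifs; exacts [P.D_nonneg ρ, le_rfl]
      by_cases h : ∃ v, Wr (X (w, v) ρ) ρ
      · obtain ⟨v, hv⟩ := h
        have h1 := single_le_sum nn (mem_univ v)
        rw [if_pos hv] at h1
        have h2 : |sg w (lab owner μ e g ρ) * ∏ v, chi (P.out p0 (loc owner p0 (X (w, v) ρ))
            (ρ p0) (c p0) (P.tr owner (X (w, v) ρ) ρ c P.rounds) 0)| = 1 := by
          rw [abs_mul, abs_sg_Low, abs_prod, one_mul]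
          exact prod_eq_one fun _ _ => abs_chi_Low _
        have h3 := mul_le_mul_of_nonneg_left (abs_le.1 h2.le).1 (d0 ρ)
        have := d1 ρ
        linarith
      · have h1 : ∀ v, P.out p0 (loc owner p0 (X (w, v) ρ)) (ρ p0) (c p0)
            (P.tr owner (X (w, v) ρ) ρ c P.rounds) = F (X (w, v) ρ) := fun v => by
          by_contra hc; exact h ⟨v, p0, hc⟩
        have h2 := prod_chi_Low owner μ e hF g ρ w
        have h3 : ∏ v, chi (P.out p0 (loc owner p0 (X (w, v) ρ)) (ρ p0) (c p0)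
            (P.tr owner (X (w, v) ρ) ρ c P.rounds) 0) = sg w (lab owner μ e g ρ) := by
          simp only [h1]; exact h2
        have h4 := sum_nonneg nn
        have h5 := sg_sq_Low w (lab owner μ e g ρ)
        calc _ ≤ D' ρ * 1 := by linarith
          _ = _ := by rw [← h5]; congr 2; exact h3.symm
    refine le_trans ?_ (sum_le_sum fun w _ => sum_le_sum fun ρ _ => one w ρ)
    simp only [sum_sub_distrib, ← mul_sum, sum_const, card_univ, nsmul_eq_mul]
    rw [Fintype.sum_prod_type] at hgc'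
    have h6 : ∑ w : Db M b, ∑ ρ, ∑ v, (if Wr (X (w, v) ρ) ρ then P.D ρ else 0) =
        ∑ w : Db M b, ∑ v, ∑ ρ, (if Wr (X (w, v) ρ) ρ then P.D ρ else 0) :=
      sum_congr rfl fun w _ => sum_comm
    rw [h6]
    have h7 : (0 : ℝ) ≤ Fintype.card (Db M b) := Nat.cast_nonneg _
    have h8 := mul_le_mul_of_nonneg_left d2 h7
    have h9 := mul_le_mul_of_nonneg_left hη h7
    linarith

end Pool.Agent.MP0f3202.Lb

namespace Pool.Agent.MP0f3202.Lb

open Finset

theorem main_Fin (hLow : SLow) (hCirc : SCirc) (N k s0 : ℕ) (hN : 2 ≤ N) (hk : 5 ≤ k) :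
    ∃ (n s d : ℕ) (C : Circ n 1 s d) (owner : Fin n → Fin N),
      s0 ≤ s ∧ s ≤ 2 * s0 + 64 * (k + 1) ∧
      ∀ (S : ℕ) (P : RProt N n 1 S), P.Masked owner → P.Secure owner C.fn (1 / 2 ^ (k + 3)) →
        (P.comm : ℝ) ≤ n + s / (16 * (k + 1) * 2 ^ k) →
        2 ^ k * (n + s) ≤ 1280 * (k + 1) * N * S := by
  classical
  obtain ⟨J, hJ1, hJ2⟩ : ∃ J, k + 1 ≤ 2 ^ J ∧ 2 ^ J ≤ 2 * (k + 1) := by
    refine ⟨Nat.log 2 (k + 1) + 1, (Nat.lt_pow_succ_log_self one_lt_two _).le, ?_⟩
    have := Nat.pow_log_le_self 2 (x := k + 1) (by omega)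
    rw [pow_succ]; omega
  obtain ⟨t, ht1, ht2⟩ : ∃ t, s0 ≤ 2 ^ (t + 3 + J + 2) ∧
      2 ^ (t + 3 + J + 2) ≤ 2 * s0 + 64 * (k + 1) := by
    have ex : ∃ t, s0 ≤ 2 ^ (t + 3 + J + 2) :=
      ⟨s0, (Nat.lt_two_pow_self.le).trans (Nat.pow_le_pow_right (by norm_num) (by omega))⟩
    refine ⟨Nat.find ex, Nat.find_spec ex, ?_⟩
    rcases h : Nat.find ex with _ | t
    · rw [show 0 + 3 + J + 2 = J + 5 by omega, pow_add]; omega
    · have := Nat.find_min ex (m := t) (by omega)
      rw [show t + 1 + 3 + J + 2 = t + 3 + J + 2 + 1 by omega, pow_succ]; omega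
  have hb16 : 2 ^ k = 16 * 2 ^ (k - 4) := by
    rw [show 16 = 2 ^ 4 by norm_num, ← pow_add]; congr 1; omega
  have hp2 : 2 ^ 1 ≤ 2 ^ (k - 4) := Nat.pow_le_pow_right (by norm_num) (by omega)
  obtain ⟨n, s, d, C, e, hn, hs, hF⟩ := hCirc (t + 3) J k hJ1
  have hM2 : 2 ^ 3 ≤ 2 ^ (t + 3) := Nat.pow_le_pow_right (by norm_num) (by omega)
  refine ⟨n, s, d, C, fun q => if (e.symm q).1 then ⟨1, by omega⟩ else ⟨0, by omega⟩, hs ▸ ht1,
    hs ▸ ht2, fun S P hM hS hc => ?_⟩
  have hη : 1 / (2 : ℝ) ^ (k + 3) * (8 + 4 * 2 ^ k) ≤ 1 := by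
    have h1 : (16 : ℝ) ≤ 2 ^ k := by exact_mod_cast (by omega : 16 ≤ 2 ^ k)
    rw [one_div, inv_mul_le_iff₀ (by positivity), pow_add]
    linarith
  obtain ⟨h1, h2⟩ := hLow N n S (2 ^ (t + 3)) k (k - 4) P _ ⟨0, by omega⟩ ⟨1, by omega⟩ e C.fn _
    (by omega) hb16 (by simp) (fun s l β => by simp) hF hM hS hη
  have hs' : s ≤ 8 * (2 ^ (t + 3) * (k + 1)) := by
    rw [hs, pow_add, pow_add (2 : ℕ) (t + 3)]
    have := Nat.mul_le_mul_left (2 ^ (t + 3)) hJ2
    nlinarith
  obtain ⟨E, hE⟩ := Nat.exists_eq_add_of_le h1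
  rw [hE, Nat.add_sub_cancel_left] at h2
  have h3 : 16 * (k + 1) * 2 ^ k * E ≤ s := by
    rw [hE] at hc
    push_cast at hc
    have h4 : (E : ℝ) ≤ s / (16 * (k + 1) * 2 ^ k) := by linarith
    rw [le_div_iff₀ (by positivity)] at h4
    exact_mod_cast (by linarith : (16 * (k + 1) * 2 ^ k * E : ℝ) ≤ s)
  rw [hb16] at h2 h3 ⊢
  generalize 2 ^ (t + 3) = M at *
  generalize 2 ^ (k - 4) = p at *
  have h4 : 32 * p * E ≤ M := by
    refine Nat.le_of_mul_le_mul_left (c := 8 * (k + 1)) ?_ (by omega)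
    nlinarith
  have h6 : p * (32 * p * E) ≤ p * M := Nat.mul_le_mul_left _ h4
  have h7 : p * 8 ≤ p * M := Nat.mul_le_mul_left _ (by omega)
  have h8 : p * M ≤ 8 * (N * S) := by nlinarith
  have h9 : n + s ≤ 10 * (M * (k + 1)) := by omega
  calc 16 * p * (n + s) ≤ 16 * p * (10 * (M * (k + 1))) := Nat.mul_le_mul_left _ h9
    _ = 160 * (k + 1) * (p * M) := by ring
    _ ≤ 160 * (k + 1) * (8 * (N * S)) := Nat.mul_le_mul_left _ h8
    _ = _ := by ring

end Pool.Agent.MP0f3202.Lb
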