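import Pool.Agent.MP_0f3202_lc.Defs

/-! Randomised protocols in the correlated randomness model, with statistical security. -/

namespace Pool.Agent.MP0f3202

open Finset

/-- A protocol for `N` parties over a broadcast channel. The dealer draws a tuple `ρ` of `S`-bit
strings with probability `D ρ` and gives `ρ p` to party `p`; every party also has `K` private
uniform random bits. In round `t` party `spk t` broadcasts `len t` bits, a function of its input,
its stored string, its private bits and the earlier messages. -/
structure RProt (N n m S : ℕ) where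
  D : (Fin N → Fin S → Bool) → ℝ
  D_nonneg : ∀ ρ, 0 ≤ D ρ
  D_sum : ∑ ρ, D ρ = 1
  K : ℕ
  rounds : ℕ
  spk : ℕ → Fin N
  len : ℕ → ℕ
  msg : ℕ → (Fin n → Bool) → (Fin S → Bool) → (Fin K → Bool) → (ℕ → ℕ) → ℕ
  msg_lt : ∀ t x r c h, msg t x r c h < 2 ^ len t
  out : Fin N → (Fin n → Bool) → (Fin S → Bool) → (Fin K → Bool) → (ℕ → ℕ) → Fin m → Bool

variable {N n m S : ℕ}

/-- the messages of the first `t` rounds (entry `j` is the message of round `j`) -/
def RProt.tr (P : RProt N n m S) (owner : Fin n → Fin N) (x : Fin n → Bool)
    (ρ : Fin N → Fin S → Bool) (c : Fin N → Fin P.K → Bool) : ℕ → ℕ → ℕ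
  | 0 => fun _ => 0
  | t + 1 => Function.update (P.tr owner x ρ c t) t
      (P.msg t (loc owner (P.spk t) x) (ρ (P.spk t)) (c (P.spk t)) (P.tr owner x ρ c t))

/-- the number of bits sent -/
def RProt.comm (P : RProt N n m S) : ℕ := ∑ t ∈ range P.rounds, P.len t

open Classical in
/-- the probability of an event about the stored strings and the private bits -/
noncomputable def RProt.pr (P : RProt N n m S)
    (E : (Fin N → Fin S → Bool) → (Fin N → Fin P.K → Bool) → Prop) : ℝ :=
  ∑ ρ, ∑ c, if E ρ c then P.D ρ / 2 ^ (N * P.K) else 0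

/-- the stored strings of the parties in `A` -/
def part (A : Finset (Fin N)) (ρ : Fin N → Fin S → Bool) : Fin N → Fin S → Bool :=
  fun p => if p ∈ A then ρ p else fun _ => false

/-- On every input all parties output `F x` except with probability at most `η`; for every nonempty
proper set `A` of parties and two inputs that agree on `A` and have the same value of `F`, the stored
strings of `A` together with the transcript are within statistical distance `η`. -/
def RProt.Secure (P : RProt N n m S) (owner : Fin n → Fin N)
    (F : (Fin n → Bool) → Fin m → Bool) (η : ℝ) : Prop :=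
  (∀ x, P.pr (fun ρ c => ∃ p,
    P.out p (loc owner p x) (ρ p) (c p) (P.tr owner x ρ c P.rounds) ≠ F x) ≤ η) ∧
  ∀ A : Finset (Fin N), A.Nonempty → A ≠ univ → ∀ x x', (∀ i, owner i ∈ A → x i = x' i) →
    F x = F x' → ∀ E : (Fin N → Fin S → Bool) → (ℕ → ℕ) → Prop,
      P.pr (fun ρ c => E (part A ρ) (P.tr owner x ρ c P.rounds)) ≤
        P.pr (fun ρ c => E (part A ρ) (P.tr owner x' ρ c P.rounds)) + η

/-- Every input bit `i` has its own round `rd i`, in which its owner broadcasts one bit: the input
bit XOR a mask bit read off the stored string of the owner. -/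
def RProt.Masked (P : RProt N n m S) (owner : Fin n → Fin N) : Prop :=
  ∃ (rd : Fin n → ℕ) (μ : Fin n → (Fin S → Bool) → Bool), Function.Injective rd ∧
    ∀ i, rd i < P.rounds ∧ P.spk (rd i) = owner i ∧ P.len (rd i) = 1 ∧
      ∀ x r c h, P.msg (rd i) x r c h = (xor (x i) (μ i r)).toNat

end Pool.Agent.MP0f3202
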