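import Pool.Agent.MP_0f3202_lc.Lb.Defs

/-! Working definitions and the statements of the steps of the storage lower bound. -/

namespace Pool.Agent.MP0f3202.Lb

open Finset

abbrev Key (N S : ℕ) := Fin N → Fin S → Bool
abbrev Lab' (M b : ℕ) := Fin M → Fin (b + 1) → Bool
abbrev Db (M b : ℕ) := Fin M → (Fin b → Bool) → Bool

/-- sign of a bit -/
def chi (v : Bool) : ℝ := if v then -1 else 1

/-- the sign read from the table `w` at the label `r` -/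
noncomputable def sg {M b : ℕ} (w : Db M b) (r : Lab' M b) : ℝ :=
  ∏ l, if w l (Fin.tail (r l)) = r l 0 then -1 else 1

/-- the data of a masked protocol -/
def Mk {N n m S : ℕ} (P : RProt N n m S) (owner : Fin n → Fin N) (rd : Fin n → ℕ)
    (μ : Fin n → (Fin S → Bool) → Bool) : Prop :=
  Function.Injective rd ∧ ∀ i, rd i < P.rounds ∧ P.spk (rd i) = owner i ∧ P.len (rd i) = 1 ∧
    ∀ x r c h, P.msg (rd i) x r c h = (xor (x i) (μ i r)).toNat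

/-- the input whose masked form is `z` -/
def inp {N n S : ℕ} (owner : Fin n → Fin N) (μ : Fin n → (Fin S → Bool) → Bool)
    (z : Fin n → Bool) (ρ : Key N S) : Fin n → Bool :=
  fun i => xor (z i) (μ i (ρ (owner i)))

/-- the hidden label: blockwise XOR of the two halves of `inp owner μ g ρ` -/
def lab {N n S M b : ℕ} (owner : Fin n → Fin N) (μ : Fin n → (Fin S → Bool) → Bool)
    (e : Bool × Fin M × Fin (b + 1) ≃ Fin n) (g : Fin n → Bool) (ρ : Key N S) : Lab' M b :=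
  fun l β => xor (inp owner μ g ρ (e (false, l, β))) (inp owner μ g ρ (e (true, l, β)))

open Classical in
/-- `F` is the parity of the number of blocks in which the two halves of the input agree -/
def IsEq {n M b : ℕ} (e : Bool × Fin M × Fin (b + 1) ≃ Fin n)
    (F : (Fin n → Bool) → Fin 1 → Bool) : Prop :=
  ∀ x, chi (F x 0) = ∏ l : Fin M, if ∀ β, x (e (false, l, β)) = x (e (true, l, β)) then -1 else 1

/-- trace moment bound -/
def STr : Prop := ∀ (K R W : Type) [Fintype K] [DecidableEq K] [Fintype R] [Fintype W]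
  (μ : K → ℝ) (Q : R → K → K → ℝ) (s : W → R → ℝ) (j : ℕ), 1 ≤ j → (∀ i, 0 ≤ μ i) →
  ∑ i, μ i ≤ 2 → (∀ r i i', 0 ≤ Q r i i') → (∀ r i i', Q r i i' = Q r i' i) →
  (∀ r i, ∑ i', Q r i i' ≤ μ i) →
  ∃ τ : W → ℝ, (∀ (w : W) (u : K → ℝ), (∀ i, |u i| ≤ 1) →
      ((∑ r, s w r * ∑ i, ∑ i', Q r i i' * (u i * u i')) / 2) ^ 2 ^ j ≤ τ w) ∧
    ∑ w, τ w ≤ Fintype.card K * ∑ f : Fin (2 ^ j) → R, |∑ w, ∏ i, s w (f i)|

/-- even moment of a sum of `16 p` signs -/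
def SKh : Prop := ∀ (A : Type) [Fintype A] [DecidableEq A] (p : ℕ), 2 ≤ p → Even p →
  Fintype.card A = 16 * p →
  2 ^ p * ∑ w : A → Bool, (∑ a, chi (w a)) ^ p ≤ (Fintype.card A : ℝ) ^ p * 2 ^ Fintype.card A

/-- label sequences rarely survive the average over the table -/
def SMom : Prop := ∀ M b j : ℕ, 1 ≤ j → 2 ^ b = 16 * 2 ^ j →
  2 ^ (2 ^ j * M) * ∑ f : Fin (2 ^ j) → Lab' M b, |∑ w : Db M b, ∏ i, sg w (f i)| ≤
    (Fintype.card (Lab' M b) : ℝ) ^ 2 ^ j * Fintype.card (Db M b)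

/-- the abstract lower bound -/
def SCore : Prop := ∀ (Ω K ι : Type) [Fintype Ω] [Fintype K] [DecidableEq K] (M b j G : ℕ)
  (D D' : Ω → ℝ) (k1 k2 : Ω → K) (r : Ω → Lab' M b) (T : Db M b → Finset ι)
  (a a' : Db M b → ι → K → ℝ), 1 ≤ j → 2 ^ b = 16 * 2 ^ j → (∀ ω, 0 ≤ D ω) → ∑ ω, D ω = 1 →
  (∀ ω, 0 ≤ D' ω) →
  (∀ k r0, (Fintype.card (Lab' M b) : ℝ) * ∑ ω, (if k1 ω = k ∧ r ω = r0 then D' ω else 0) ≤
    2 * ∑ ω, if k1 ω = k then D ω else 0) →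
  (∀ k r0, (Fintype.card (Lab' M b) : ℝ) * ∑ ω, (if k2 ω = k ∧ r ω = r0 then D' ω else 0) ≤
    2 * ∑ ω, if k2 ω = k then D ω else 0) →
  (∀ w, (T w).card ≤ G) → (∀ w t k, |a w t k| ≤ 1) → (∀ w t k, |a' w t k| ≤ 1) →
  (Fintype.card (Db M b) : ℝ) / 2 ≤
    ∑ w, ∑ ω, D' ω * (sg w (r ω) * ∑ t ∈ T w, a w t (k1 ω) * a' w t (k2 ω)) →
  2 ^ (2 ^ j * M) ≤ 2 * Fintype.card K * (4 * G) ^ 2 ^ j

open Classical in
/-- almost independent labels can be cut down to labels of bounded density -/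
def SGood : Prop := ∀ (Ω K R : Type) [Fintype Ω] [Fintype K] [DecidableEq K] [Fintype R]
  [DecidableEq R] [Nonempty R] (D : Ω → ℝ) (k1 k2 : Ω → K) (r : Ω → R) (σ : R → R → R) (η : ℝ),
  (∀ ω, 0 ≤ D ω) → ∑ ω, D ω = 1 → (∀ r0, Function.Bijective fun u => σ u r0) →
  (∀ (u : R) (B : K → R → Prop), ∑ ω, (if B (k1 ω) (r ω) then D ω else 0) ≤
    ∑ ω, (if B (k1 ω) (σ u (r ω)) then D ω else 0) + η) →
  (∀ (u : R) (B : K → R → Prop), ∑ ω, (if B (k2 ω) (r ω) then D ω else 0) ≤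
    ∑ ω, (if B (k2 ω) (σ u (r ω)) then D ω else 0) + η) →
  ∃ D' : Ω → ℝ, (∀ ω, 0 ≤ D' ω) ∧ (∀ ω, D' ω ≤ D ω) ∧ 1 - 4 * η ≤ ∑ ω, D' ω ∧
    (∀ k r0, (Fintype.card R : ℝ) * ∑ ω, (if k1 ω = k ∧ r ω = r0 then D' ω else 0) ≤
      2 * ∑ ω, if k1 ω = k then D ω else 0) ∧
    ∀ k r0, (Fintype.card R : ℝ) * ∑ ω, (if k2 ω = k ∧ r ω = r0 then D' ω else 0) ≤
      2 * ∑ ω, if k2 ω = k then D ω else 0

/-- rectangles of a masked protocol -/
def SRect : Prop := ∀ (N n S : ℕ) (P : RProt N n 1 S) (owner : Fin n → Fin N) (rd : Fin n → ℕ)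
  (μ : Fin n → (Fin S → Bool) → Bool) (p0 : Fin N) (z : Fin n → Bool)
  (c : Fin N → Fin P.K → Bool), Mk P owner rd μ → n ≤ P.comm ∧
  ∃ (T : Finset (ℕ → ℕ)) (a a' : (ℕ → ℕ) → Key N S → ℝ), T.card ≤ 2 ^ (P.comm - n) ∧
    (∀ h k, |a h k| ≤ 1) ∧ (∀ h k, |a' h k| ≤ 1) ∧
    ∀ ρ : Key N S, ∑ h ∈ T, a h (part {p0} ρ) * a' h (part {p0}ᶜ ρ) =
      chi (P.out p0 (loc owner p0 (inp owner μ z ρ)) (ρ p0) (c p0)
        (P.tr owner (inp owner μ z ρ) ρ c P.rounds) 0)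

open Classical in
/-- privacy makes the label almost independent of the strings of either side -/
def SPriv : Prop := ∀ (N n S M b : ℕ) (P : RProt N n 1 S) (owner : Fin n → Fin N)
  (rd : Fin n → ℕ) (μ : Fin n → (Fin S → Bool) → Bool) (p0 p1 : Fin N)
  (e : Bool × Fin M × Fin (b + 1) ≃ Fin n) (F : (Fin n → Bool) → Fin 1 → Bool) (η : ℝ)
  (g : Fin n → Bool), 1 ≤ b → p0 ≠ p1 → (∀ s l β, owner (e (s, l, β)) = if s then p1 else p0) →
  IsEq e F → Mk P owner rd μ → P.Secure owner F η →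
  ∀ A : Finset (Fin N), A = {p0} ∨ A = {p0}ᶜ → ∀ (u : Lab' M b) (B : Key N S → Lab' M b → Prop),
    ∑ ρ, (if B (part A ρ) (lab owner μ e g ρ) then P.D ρ else 0) ≤
      ∑ ρ, (if B (part A ρ) (fun l β => xor (u l β) (lab owner μ e g ρ l β)) then P.D ρ else 0)
        + η

open Classical in
/-- a good shift and good private bits -/
def SErr : Prop := ∀ (N n S : ℕ) (P : RProt N n 1 S) (owner : Fin n → Fin N)
  (μ : Fin n → (Fin S → Bool) → Bool) (I : Type) [Fintype I] (pat : I → Fin n → Bool)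
  (Wr : (Fin n → Bool) → Key N S → (Fin N → Fin P.K → Bool) → Prop) (η : ℝ),
  (∀ x, P.pr (Wr x) ≤ η) →
  ∃ (g : Fin n → Bool) (c : Fin N → Fin P.K → Bool),
    ∑ i, ∑ ρ, (if Wr (inp owner μ (fun q => xor (pat i q) (g q)) ρ) ρ c then P.D ρ else 0) ≤
      Fintype.card I * η

/-- the lower bound for the function -/
def SLow : Prop := ∀ (N n S M b j : ℕ) (P : RProt N n 1 S) (owner : Fin n → Fin N)
  (p0 p1 : Fin N) (e : Bool × Fin M × Fin (b + 1) ≃ Fin n) (F : (Fin n → Bool) → Fin 1 → Bool)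
  (η : ℝ), 1 ≤ j → 2 ^ b = 16 * 2 ^ j → p0 ≠ p1 →
  (∀ s l β, owner (e (s, l, β)) = if s then p1 else p0) → IsEq e F → P.Masked owner →
  P.Secure owner F η → η * (8 + 4 * 2 ^ b) ≤ 1 →
  n ≤ P.comm ∧ 2 ^ j * M ≤ N * S + 1 + 2 ^ j * (2 + 2 ^ b * (P.comm - n))

/-- the tree circuit -/
def SCirc : Prop := ∀ i j b : ℕ, b + 1 ≤ 2 ^ j →
  ∃ (n s d : ℕ) (C : Circ n 1 s d) (e : Bool × Fin (2 ^ i) × Fin (b + 1) ≃ Fin n),
    n = 2 * (2 ^ i * (b + 1)) ∧ s = 2 ^ (i + j + 2) ∧ IsEq e C.fn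

end Pool.Agent.MP0f3202.Lb
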